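import Mathlib
import Pool.Agent.H547R3.PadicPow

set_option autoImplicit false

/-!
Quadratic forms in `k`-th powers: for even `k` the Hasse principle fails in arbitrarily many
variables.
-/

namespace Pool.Agent.Results.MP_c0a553_nt.EvenDegrees

open Finset

/-- The value at `y` of the form `F(y) = Q(y_1 ^ k, ..., y_s ^ k)`, where `Q` is the quadratic form
with symmetric matrix `A`. -/
def value {s : ℕ} (A : Matrix (Fin s) (Fin s) ℚ) (k : ℕ) {K : Type} [Field K] (y : Fin s → K) : K :=
  ∑ i, ∑ j, (A i j : K) * (y i ^ k * y j ^ k)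

/-- `F` has a nontrivial zero over `K`. -/
def HasZero {s : ℕ} (A : Matrix (Fin s) (Fin s) ℚ) (k : ℕ) (K : Type) [Field K] : Prop :=
  ∃ y : Fin s → K, y ≠ 0 ∧ value A k y = 0

/-- Every form `Q(y_1 ^ k, ..., y_s ^ k)`, with `Q` a nonsingular rational quadratic form in `s`
variables, satisfies the Hasse principle. -/
def Hasse (k s : ℕ) : Prop :=
  ∀ A : Matrix (Fin s) (Fin s) ℚ, A.IsSymm → A.det ≠ 0 →
    HasZero A k ℝ → (∀ (p : ℕ) [Fact p.Prime], HasZero A k ℚ_[p]) → HasZero A k ℚ

/-- The least `s₀` such that `Hasse k s` holds for all `s ≥ s₀`; it is `⊤` (infinity) if there is no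
such `s₀`. -/
noncomputable def h (k : ℕ) : ℕ∞ := ⨅ s₀ ∈ {s₀ : ℕ | ∀ s : ℕ, s₀ ≤ s → Hasse k s}, (s₀ : ℕ∞)

/-! ### the example -/

/-- the matrix of `2 (x_0 - 2 x_1) ^ 2 + 2 x_1 x_2 + 2 (x_2 ^ 2 + ... )` -/
def M {s : ℕ} (a b c : Fin s) : Matrix (Fin s) (Fin s) ℚ := fun i j =>
  (if i = j then 2 else 0) + (if i = a then (if j = b then -4 else 0) else 0) +
  (if i = b then (if j = a then -4 else 0) else 0) + (if i = b then (if j = b then 6 else 0) else 0) +
  (if i = b then (if j = c then 1 else 0) else 0) + (if i = c then (if j = b then 1 else 0) else 0)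

theorem M_symm {s : ℕ} (a b c : Fin s) : (M a b c).IsSymm := by
  have sw : ∀ (i j u v : Fin s) (r : ℚ), (if i = u then (if j = v then r else 0) else 0) =
      (if j = v then (if i = u then r else 0) else 0) := by
    intro i j u v r
    split_ifs <;> rfl
  apply Matrix.IsSymm.ext
  intro i j
  unfold M
  rw [sw j i a b, sw j i b a, sw j i b b, sw j i b c, sw j i c b]
  have e : (if j = i then (2 : ℚ) else 0) = if i = j then 2 else 0 := by
    by_cases h : i = j
    · rw [if_pos h, if_pos h.symm]
    · rw [if_neg h, if_neg (fun h' => h h'.symm)]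
  rw [e]
  ring

theorem M_mulVec {s : ℕ} (a b c : Fin s) (x : Fin s → ℚ) (i : Fin s) :
    (M a b c).mulVec x i = 2 * x i + (if i = a then -4 * x b else 0) + (if i = b then -4 * x a else 0) +
      (if i = b then 6 * x b else 0) + (if i = b then x c else 0) + (if i = c then x b else 0) := by
  unfold Matrix.mulVec dotProduct M
  simp only [add_mul, sum_add_distrib, ite_mul, zero_mul]
  congr 1
  · congr 1
    · congr 1
      · congr 1
        · congr 1
          · rw [sum_ite_eq univ i]; simp
          · split_ifs <;> simp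
        · split_ifs <;> simp
      · split_ifs <;> simp
    · split_ifs <;> simp
  · split_ifs <;> simp

theorem M_det {s : ℕ} {a b c : Fin s} (hab : a ≠ b) (hac : a ≠ c) (hbc : b ≠ c) : (M a b c).det ≠ 0 := by
  intro hdet
  rw [← Matrix.exists_mulVec_eq_zero_iff] at hdet
  obtain ⟨x, hx0, hx⟩ := hdet
  apply hx0
  have hrow : ∀ i, (M a b c).mulVec x i = 0 := fun i => congrFun hx i
  have ha := hrow a
  have hb := hrow b
  have hc := hrow c
  rw [M_mulVec] at ha hb hc
  simp only [hab, hab.symm, hac, hac.symm, hbc, hbc.symm, if_true, if_false, add_zero] at ha hb hc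
  have e1 : x b = 0 := by linarith
  have e2 : x a = 0 := by linarith
  have e3 : x c = 0 := by linarith
  funext i
  have hi := hrow i
  rw [M_mulVec] at hi
  by_cases ia : i = a
  · rw [ia]; exact e2
  by_cases ib : i = b
  · rw [ib]; exact e1
  by_cases ic : i = c
  · rw [ic]; exact e3
  simp only [ia, ib, ic, if_false, add_zero] at hi
  show x i = 0
  linarith

theorem value_M {s : ℕ} (a b c : Fin s) (k : ℕ) {K : Type} [Field K] [CharZero K] (y : Fin s → K) :
    value (M a b c) k y = 2 * ∑ i, (y i ^ k) ^ 2 - 8 * (y a ^ k * y b ^ k) + 6 * (y b ^ k) ^ 2 +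
      2 * (y b ^ k * y c ^ k) := by
  have h1 : ∀ i j, ((M a b c i j : ℚ) : K) = (if i = j then 2 else 0) +
      (if i = a then (if j = b then -4 else 0) else 0) +
      (if i = b then (if j = a then -4 else 0) else 0) +
      (if i = b then (if j = b then 6 else 0) else 0) +
      (if i = b then (if j = c then 1 else 0) else 0) +
      (if i = c then (if j = b then 1 else 0) else 0) := by
    intro i j
    unfold M
    push_cast
    simp only [apply_ite (fun q : ℚ => (q : K)), Rat.cast_zero, Rat.cast_one, Rat.cast_ofNat,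
      Rat.cast_neg]
  unfold value
  simp only [h1, add_mul, sum_add_distrib, ite_mul, zero_mul]
  have e1 : ∑ i : Fin s, ∑ j : Fin s, (if i = j then (2 : K) * (y i ^ k * y j ^ k) else 0) =
      2 * ∑ i, (y i ^ k) ^ 2 := by
    rw [mul_sum]
    apply sum_congr rfl
    intro i _
    rw [sum_ite_eq univ i]
    simp only [mem_univ, if_true]
    ring
  have e2 : ∀ (u v : Fin s) (r : K), ∑ i : Fin s, ∑ j : Fin s,
      (if i = u then (if j = v then r * (y i ^ k * y j ^ k) else 0) else 0) =
      r * (y u ^ k * y v ^ k) := by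
    intro u v r
    rw [sum_eq_single u]
    · rw [sum_eq_single v]
      · simp
      · intro j _ hj; simp [hj]
      · intro h; exact absurd (mem_univ _) h
    · intro i _ hi
      apply sum_eq_zero
      intro j _
      rw [if_neg hi]
    · intro h; exact absurd (mem_univ _) h
  rw [e1, e2, e2, e2, e2, e2]
  ring

theorem not_hasse {k : ℕ} (hk : Even k) (hk0 : 0 < k) {s : ℕ} (hs : 8 * k ^ 3 + 2 ≤ s) :
    ¬ Hasse k s := by
  have hk2 : 2 ≤ k := by
    obtain ⟨m, hm⟩ := hk
    omega
  have hk3 : 1 ≤ k ^ 3 := Nat.one_le_pow _ _ hk0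
  obtain ⟨n, rfl⟩ : ∃ n, s = n + 2 := ⟨s - 2, by omega⟩
  have hn : (2 * k) ^ 3 ≤ n := by
    have : (2 * k) ^ 3 = 8 * k ^ 3 := by ring
    omega
  have hn1 : 1 ≤ n := by nlinarith
  intro hH
  set a : Fin (n + 2) := 0 with ha
  set b : Fin (n + 2) := 1 with hb
  set c : Fin (n + 2) := ⟨2, by omega⟩ with hc
  have hab : a ≠ b := by
    rw [ha, hb]; intro h; have := congrArg Fin.val h; simp at this
  have hac : a ≠ c := by
    rw [ha, hc]; intro h; have := congrArg Fin.val h; simp at this
  have hbc : b ≠ c := by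
    rw [hb, hc]; intro h; have := congrArg Fin.val h; simp at this
  have hQ := hH (M a b c) (M_symm a b c) (M_det hab hac hbc) ?_ ?_
  · -- no rational zero
    obtain ⟨y, hy0, hy⟩ := hQ
    rw [value_M] at hy
    set u : Fin (n + 2) → ℚ := fun i => y i ^ k with hu
    have hu0 : ∀ i, 0 ≤ u i := fun i => hk.pow_nonneg _
    have hsum : ∑ i, (u i) ^ 2 = u a ^ 2 + (u b ^ 2 + ∑ i ∈ (univ.erase a).erase b, (u i) ^ 2) := by
      rw [← add_sum_erase _ _ (mem_univ a), ← add_sum_erase _ _ (mem_erase.2 ⟨hab.symm, mem_univ b⟩)]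
    have hrest : 0 ≤ ∑ i ∈ (univ.erase a).erase b, (u i) ^ 2 := sum_nonneg (fun i _ => sq_nonneg _)
    have hy' : 2 * (u a - 2 * u b) ^ 2 + 2 * (u b * u c) +
        2 * ∑ i ∈ (univ.erase a).erase b, (u i) ^ 2 = 0 := by
      have : 2 * ∑ i, (u i) ^ 2 - 8 * (u a * u b) + 6 * (u b) ^ 2 + 2 * (u b * u c) = 0 := hy
      rw [hsum] at this
      linear_combination this
    have hbc0 : 0 ≤ u b * u c := mul_nonneg (hu0 b) (hu0 c)
    have h1 : u a = 2 * u b := by
      have : (u a - 2 * u b) ^ 2 = 0 := by nlinarith [sq_nonneg (u a - 2 * u b)]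
      have := pow_eq_zero_iff (two_ne_zero) |>.1 this
      linarith
    have h2 : ∑ i ∈ (univ.erase a).erase b, (u i) ^ 2 = 0 := by
      nlinarith [sq_nonneg (u a - 2 * u b)]
    rw [sum_eq_zero_iff_of_nonneg (fun i _ => sq_nonneg _)] at h2
    have h3 : y b = 0 := by
      by_contra hyb
      have h4 : (y a / y b) ^ k = 2 := by
        rw [div_pow]
        have hub : y b ^ k ≠ 0 := pow_ne_zero _ hyb
        rw [div_eq_iff hub]
        exact h1
      -- `2` is not a `k`-th power
      have h5 : Irrational ((2 : ℝ) ^ (1 / (k : ℝ))) := by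
        apply irrational_nrt_of_notint_nrt k 2
        · rw [← Real.rpow_natCast, ← Real.rpow_mul (by norm_num)]
          rw [one_div, inv_mul_cancel₀ (by exact_mod_cast hk0.ne'), Real.rpow_one]
          norm_num
        · rintro ⟨m, hm⟩
          have h6 : ((m : ℝ)) ^ k = 2 := by
            rw [← hm, ← Real.rpow_natCast, ← Real.rpow_mul (by norm_num)]
            rw [one_div, inv_mul_cancel₀ (by exact_mod_cast hk0.ne'), Real.rpow_one]
          have h7 : (m : ℤ) ^ k = 2 := by exact_mod_cast h6
          have h8 : m.natAbs ^ k = 2 := by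
            have := congrArg Int.natAbs h7
            rwa [Int.natAbs_pow] at this
          have h9 : m.natAbs ≤ 1 ∨ 2 ≤ m.natAbs := by omega
          rcases h9 with h9 | h9
          · have : m.natAbs ^ k ≤ 1 := pow_le_one₀ (by omega) h9
            omega
          · have : 2 ^ 2 ≤ m.natAbs ^ k :=
              (Nat.pow_le_pow_left h9 2).trans (Nat.pow_le_pow_right (by omega) hk2)
            omega
        · exact hk0
      apply h5
      refine ⟨|y a / y b|, ?_⟩
      have h10 : (|((y a / y b : ℚ) : ℝ)|) ^ k = 2 := by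
        rw [hk.pow_abs]
        exact_mod_cast h4
      push_cast
      rw [← h10, one_div, ← Rat.cast_div]
      exact (Real.pow_rpow_inv_natCast (abs_nonneg _) hk0.ne').symm
    apply hy0
    funext i
    show y i = 0
    by_cases ib : i = b
    · rw [ib]; exact h3
    by_cases ia : i = a
    · rw [ia]
      have h4 : u b = 0 := by rw [hu]; simp only; rw [h3, zero_pow hk0.ne']
      rw [h4, mul_zero] at h1
      exact pow_eq_zero_iff hk0.ne' |>.1 h1
    · have h4 := h2 i (mem_erase.2 ⟨ib, mem_erase.2 ⟨ia, mem_univ i⟩⟩)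
      have h5 := pow_eq_zero_iff (two_ne_zero) |>.1 h4
      exact pow_eq_zero_iff hk0.ne' |>.1 h5
  · -- real zero
    refine ⟨fun i => if i = a then (2 : ℝ) ^ (1 / (k : ℝ)) else if i = b then 1 else 0, ?_, ?_⟩
    · intro h
      have := congrFun h b
      simp [hab.symm] at this
    · rw [value_M]
      have h2 : ((2 : ℝ) ^ (1 / (k : ℝ))) ^ k = 2 := by
        rw [← Real.rpow_natCast, ← Real.rpow_mul (by norm_num), one_div,
          inv_mul_cancel₀ (by exact_mod_cast hk0.ne'), Real.rpow_one]
      have hsum : ∑ i : Fin (n + 2), ((if i = a then (2 : ℝ) ^ (1 / (k : ℝ)) else if i = b then 1 else 0) ^ k) ^ 2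
          = 4 + 1 := by
        rw [← add_sum_erase _ _ (mem_univ a), ← add_sum_erase _ _ (mem_erase.2 ⟨hab.symm, mem_univ b⟩)]
        rw [if_pos rfl, h2, if_neg hab.symm, if_pos rfl]
        rw [sum_eq_zero]
        · norm_num
        · intro i hi
          rw [mem_erase, mem_erase] at hi
          rw [if_neg hi.2.1, if_neg hi.1, zero_pow hk0.ne', zero_pow (by norm_num)]
      rw [hsum]
      simp only [if_true, hab.symm, hac.symm, hbc.symm, if_false]
      rw [h2, zero_pow hk0.ne']
      norm_num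
  · -- p-adic zeros
    intro p hp
    obtain ⟨z, hz0, hz⟩ := Pool.Agent.H547R3.Had.padic_zero p (e := 2 * k) (by omega) hn
    refine ⟨Fin.cons 0 (Fin.cons 0 z), ?_, ?_⟩
    · intro h
      apply hz0
      funext i
      have := congrFun h i.succ.succ
      simpa using this
    · rw [value_M]
      have hya : (Fin.cons 0 (Fin.cons 0 z) : Fin (n + 2) → ℚ_[p]) a = 0 := rfl
      have hyb : (Fin.cons 0 (Fin.cons 0 z) : Fin (n + 2) → ℚ_[p]) b = 0 := rfl
      rw [hya, hyb, zero_pow hk0.ne', Fin.sum_univ_succ, Fin.sum_univ_succ]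
      simp only [Fin.cons_zero, Fin.cons_succ]
      rw [zero_pow hk0.ne']
      have : ∑ i : Fin n, (z i ^ k) ^ 2 = 0 := by
        rw [← hz]
        apply sum_congr rfl
        intro i _
        rw [← pow_mul, mul_comm]
      rw [this]
      ring

/-- For every even `k ≥ 2` the number `h(k)` is infinite. More precisely, for every even `k ≥ 2` and
every `s ≥ 8 k ^ 3 + 2` some form `Q(y_1 ^ k, ..., y_s ^ k)` with `Q` a nonsingular rational quadratic
form has nontrivial zeros over `ℝ` and over every `ℚ_p`, but none over `ℚ`. -/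
theorem result : ∀ k : ℕ, Even k → 0 < k →
    h k = ⊤ ∧ ∀ s : ℕ, 8 * k ^ 3 + 2 ≤ s → ¬ Hasse k s := by
  intro k hk hk0
  refine ⟨?_, fun s hs => not_hasse hk hk0 hs⟩
  unfold h
  rw [iInf₂_eq_top]
  intro s₀ hs₀
  exfalso
  exact not_hasse hk hk0 (le_max_left (8 * k ^ 3 + 2) s₀) (hs₀ _ (le_max_right _ _))

end Pool.Agent.Results.MP_c0a553_nt.EvenDegrees
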